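import Pool.Agent.H30.FCB.StA
import Pool.Agent.H30.FCB.Basic

/-!
CHEL: elements of the chart rings.
-/

namespace FCB

namespace CHEL

variable {R ι C : Type} {r : ℕ} [CommRing R] [IsDomain R] [Algebra ℂ R] [Fintype ι]
  {D : Cox R ι C r}

/-- positive part of an exponent -/
def pp (n : ι → ℤ) : ι → ℕ := fun j => (n j).toNat

omit [Fintype ι] in
lemma pp_sub (n : ι → ℤ) : (fun j => (pp n j : ℤ)) - (fun j => (pp (-n) j : ℤ)) = n := by
  funext j
  simp only [Pi.sub_apply, pp, Pi.neg_apply, Int.toNat_sub_toNat_neg]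

omit [Fintype ι] in
lemma pp_ne (n : ι → ℤ) (j : ι) (h : pp n j ≠ 0) : n j ≠ 0 := by
  intro h0
  apply h
  simp [pp, h0]

omit [CommRing R] [IsDomain R] [Algebra ℂ R] in
lemma wt_pp (n : ι → ℤ) : D.wt (pp n) - D.wt (pp (-n)) = D.wtZ n := by
  rw [← D.wtZ_cast, ← D.wtZ_cast, ← D.wtZ_sub, pp_sub]

lemma mul_pp (h : D.Laws) (n : ι → ℤ) : D.monoZ (-n) * algebraMap R (FractionRing R) (D.mono (pp n))
    = algebraMap R (FractionRing R) (D.mono (pp (-n))) := by
  rw [← Cox.monoZ_cast, ← Cox.monoZ_cast, ← h.monoZ_add]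
  congr 1
  have := pp_sub n
  funext j
  have h2 := congrFun this j
  simp only [Pi.sub_apply, Pi.add_apply, Pi.neg_apply] at h2 ⊢
  omega

end CHEL

open CHEL in
/-- CHEL. -/
theorem chel : S_CHEL := by
  intro R ι C r _ _ _ _ D h c
  refine ⟨?_, ?_, ?_⟩
  · intro g a ha
    refine ⟨pp (D.σ c g), a * D.mono (pp (-(D.σ c g))), ?_, ?_, ?_⟩
    · intro j hj
      exact h.σ_supp c g j (pp_ne _ _ hj)
    · have h1 := D.mul_mem ha (D.mono_mem (pp (-(D.σ c g))))
      have h2 := wt_pp (D := D) (D.σ c g)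
      rw [h.σ_wt] at h2
      rw [sub_eq_iff_eq_add] at h2
      rwa [h2]
    · rw [mul_assoc, mul_pp h, map_mul]
  · intro n hn h0
    refine ⟨pp (-n), D.mono (pp n), ?_, ?_, ?_⟩
    · intro j hj
      exact hn j (by simpa using pp_ne _ _ hj)
    · have h1 := D.mono_mem (pp n)
      have h2 := wt_pp (D := D) n
      rw [h0, sub_eq_zero] at h2
      rwa [h2] at h1
    · have h1 := mul_pp h (-n)
      rwa [neg_neg] at h1
  · rintro f ⟨n, a, hn, ha, hf⟩
    refine ⟨D.wt n, a, D.σ c (D.wt n) - (fun j => (n j : ℤ)), ha, ?_, ?_, ?_⟩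
    · intro j hj
      by_cases h1 : n j = 0
      · refine h.σ_supp c (D.wt n) j ?_
        simpa [h1] using hj
      · exact hn j h1
    · rw [D.wtZ_sub, h.σ_wt, D.wtZ_cast, sub_self]
    · rw [mul_assoc, ← h.monoZ_add, neg_add_eq_sub, sub_sub_cancel_left, h.monoZ_neg,
        Cox.monoZ_cast, ← hf]
      have h1 : algebraMap R (FractionRing R) (D.mono n) ≠ 0 := by
        rw [Ne, FaithfulSMul.algebraMap_eq_zero_iff]
        exact h.mono_ne n
      field_simp

end FCB
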