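import Pool.Agent.H30.FCB.StA
import Pool.Agent.H30.FCB.Basic

/-!
CHFG: the chart rings are finitely generated.
-/

namespace FCB

namespace CHFG

/-- A subalgebra spanned by the values of a multiplicative function on a finitely generated
monoid is finitely generated. -/
theorem fg_of_gen {K N : Type} [CommRing K] [Algebra ℂ K] [AddCommMonoid N]
    (P : AddSubmonoid N) (hfg : P.FG) (Φ : N → K) (h0 : Φ 0 = 1)
    (hadd : ∀ x ∈ P, ∀ y ∈ P, Φ (x + y) = Φ x * Φ y) (A : Subalgebra ℂ K)
    (hA : ∀ x ∈ P, Φ x ∈ A) (hgen : ∀ f ∈ A, f ∈ Submodule.span ℂ (Φ '' (P : Set N))) :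
    A.FG := by
  classical
  obtain ⟨S, hS⟩ := hfg
  refine ⟨S.image Φ, le_antisymm ?_ ?_⟩
  · apply Algebra.adjoin_le
    intro f hf
    simp only [Finset.coe_image, Set.mem_image, Finset.mem_coe] at hf
    obtain ⟨x, hx, rfl⟩ := hf
    exact hA x (hS ▸ AddSubmonoid.subset_closure hx)
  · have key : ∀ x ∈ P, Φ x ∈ Algebra.adjoin ℂ ((S.image Φ : Finset K) : Set K) := by
      intro x hx
      rw [← hS] at hx
      have key2 : ∀ x (_ : x ∈ AddSubmonoid.closure (S : Set N)),
          x ∈ P ∧ Φ x ∈ Algebra.adjoin ℂ ((S.image Φ : Finset K) : Set K) := by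
        intro x hx
        induction hx using AddSubmonoid.closure_induction with
        | mem x hx =>
          refine ⟨hS ▸ AddSubmonoid.subset_closure hx, Algebra.subset_adjoin ?_⟩
          simpa using ⟨x, hx, rfl⟩
        | zero =>
          refine ⟨P.zero_mem, ?_⟩
          rw [h0]
          exact Subalgebra.one_mem _
        | add x y hx hy ihx ihy =>
          refine ⟨P.add_mem ihx.1 ihy.1, ?_⟩
          rw [hadd x ihx.1 y ihy.1]
          exact Subalgebra.mul_mem _ ihx.2 ihy.2
      exact (key2 x hx).2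
    intro f hf
    have h1 := hgen f hf
    have h2 : Submodule.span ℂ (Φ '' (P : Set N)) ≤
        Subalgebra.toSubmodule (Algebra.adjoin ℂ ((S.image Φ : Finset K) : Set K)) := by
      apply Submodule.span_le.2
      rintro _ ⟨x, hx, rfl⟩
      exact key x hx
    exact h2 h1

end CHFG

open CHFG in
/-- CHFG. -/
theorem chfg : S_CHFG := by
  classical
  intro R ι C r _ _ _ _ D h c
  rw [← Subalgebra.fg_iff_finiteType]
  have hne : ∀ n : ι → ℕ, algebraMap R (FractionRing R) (D.mono n) ≠ 0 := by
    intro n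
    rw [Ne, FaithfulSMul.algebraMap_eq_zero_iff]
    exact h.mono_ne n
  let M : AddSubmonoid ((ι → ℕ) × (ι → ℕ)) :=
    { carrier := {x | D.wt x.1 = D.wt x.2 ∧ ∀ j, x.2 j ≠ 0 → j ∈ D.u c}
      zero_mem' := by simp
      add_mem' := by
        rintro x y ⟨hx1, hx2⟩ ⟨hy1, hy2⟩
        refine ⟨?_, ?_⟩
        · simp only [Prod.fst_add, Prod.snd_add, D.wt_add, hx1, hy1]
        · intro j hj
          by_cases h1 : x.2 j = 0
          · refine hy2 j ?_
            simpa [h1] using hj
          · exact hx2 j h1 }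
  have hM : M.FG := by
    apply AddSubmonoid.fg_of_subtractive
    rintro x ⟨hx1, hx2⟩ y ⟨hy1, hy2⟩
    refine ⟨?_, ?_⟩
    · simp only [Prod.fst_add, Prod.snd_add, D.wt_add, hx1] at hy1
      exact add_left_cancel hy1
    · intro j hj
      refine hy2 j ?_
      simp only [Prod.snd_add, Pi.add_apply]
      omega
  refine fg_of_gen M hM
    (fun x => algebraMap R (FractionRing R) (D.mono x.1) / algebraMap R (FractionRing R) (D.mono x.2))
    ?_ ?_ _ ?_ ?_
  · simp [D.mono_zero]
  · intro x _ y _
    simp only [Prod.fst_add, Prod.snd_add, D.mono_add, map_mul]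
    rw [mul_div_mul_comm]
  · rintro x ⟨hx1, hx2⟩
    refine ⟨x.2, D.mono x.1, hx2, ?_, ?_⟩
    · rw [← hx1]
      exact D.mono_mem _
    · exact div_mul_cancel₀ _ (hne _)
  · rintro f ⟨n, a, hn, ha, hf⟩
    have hf2 : f = algebraMap R (FractionRing R) a / algebraMap R (FractionRing R) (D.mono n) := by
      rw [← hf, mul_div_cancel_right₀ _ (hne n)]
    rw [hf2]
    clear hf hf2
    rw [Cox.gr] at ha
    induction ha using Submodule.span_induction with
    | mem a ha =>
      obtain ⟨k, hk, rfl⟩ := ha
      exact Submodule.subset_span ⟨(k, n), ⟨hk, hn⟩, rfl⟩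
    | zero =>
      rw [map_zero, zero_div]
      exact Submodule.zero_mem _
    | add a b ha hb iha ihb =>
      rw [map_add, add_div]
      exact Submodule.add_mem _ iha ihb
    | smul z a ha iha =>
      have h1 : algebraMap R (FractionRing R) (z • a) = z • algebraMap R (FractionRing R) a := by
        rw [Algebra.smul_def, map_mul, ← IsScalarTower.algebraMap_apply, ← Algebra.smul_def]
      rw [h1, smul_div_assoc]
      exact Submodule.smul_mem _ _ iha

end FCB
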