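import Pool.Agent.H30.FCB.StC
import Pool.Agent.H30.FCB.Basic

/-!
SMXY: all chart rings of `X` and `Y` are smooth.
-/

open MvPolynomial

namespace FCB

/-- SMXY. -/
theorem smxy (h1 : S_SMH) (h2 : S_XJAC) (h3 : S_RETR) : S_SMXY := by
  refine ⟨?_, ?_⟩
  · intro _ hL c
    refine h3 RX CX ChX 5 DX hL c ?_
    have hm : Ideal.Quotient.mk (Ideal.span {FX}) (∏ j ∈ uX c, (X j : MvPolynomial CX ℂ)) =
        ∏ j ∈ DX.u c, DX.X j := by
      rw [map_prod]
      rfl
    have hl : IsLocalization.Away (Ideal.Quotient.mk (Ideal.span {FX})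
        (∏ j ∈ uX c, (X j : MvPolynomial CX ℂ))) (Localization.Away (∏ j ∈ DX.u c, DX.X j)) := by
      rw [hm]
      infer_instance
    exact h1 CX FX (∏ j ∈ uX c, (X j : MvPolynomial CX ℂ))
      (Localization.Away (∏ j ∈ DX.u c, DX.X j)) hl (h2 c)
  · intro hL c
    refine h3 RY CY ChY 3 DY hL c ?_
    have hsm : Algebra.Smooth ℂ RY :=
      { formallySmooth := inferInstanceAs (Algebra.FormallySmooth ℂ (MvPolynomial CY ℂ))
        finitePresentation := inferInstanceAs (Algebra.FinitePresentation ℂ (MvPolynomial CY ℂ)) }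
    have hsm2 : Algebra.Smooth RY (Localization.Away (∏ j ∈ DY.u c, DY.X j)) :=
      Algebra.Smooth.of_isLocalization_Away (∏ j ∈ DY.u c, DY.X j)
    exact Algebra.Smooth.comp ℂ RY (Localization.Away (∏ j ∈ DY.u c, DY.X j))

end FCB
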