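import Pool.Agent.H23.FCB.CHFG

/-!
VEFG: the Veronese ring is finitely generated, and its part of degree zero is the field of
complex numbers.
-/

namespace FCB

namespace VEFG

variable {R ι C : Type} {r : ℕ} [CommRing R] [IsDomain R] [Algebra ℂ R] [Fintype ι]
  {D : Cox R ι C r}

omit [IsDomain R] in
theorem fg : D.ver.FG := by
  classical
  let M : AddSubmonoid ((ι → ℕ) × ℕ) :=
    { carrier := {x | D.wt x.1 = x.2 • D.L}
      zero_mem' := by simp [D.wt_zero]
      add_mem' := by
        intro x y hx hy
        simp only [Set.mem_ofPred_eq] at hx hy ⊢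
        rw [Prod.fst_add, Prod.snd_add, D.wt_add, hx, hy, add_smul] }
  have hM : M.FG := by
    apply AddSubmonoid.fg_of_subtractive
    intro x hx y hy
    change D.wt x.1 = x.2 • D.L at hx
    change D.wt (x + y).1 = (x + y).2 • D.L at hy
    change D.wt y.1 = y.2 • D.L
    rw [Prod.fst_add, Prod.snd_add, D.wt_add, hx, add_smul] at hy
    exact add_left_cancel hy
  refine CHFG.fg_of_gen M hM (fun x => Polynomial.monomial x.2 (D.mono x.1)) ?_ ?_ _ ?_ ?_
  · simp [D.mono_zero]
  · intro x _ y _
    rw [Polynomial.monomial_mul_monomial, Prod.fst_add, Prod.snd_add, D.mono_add]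
  · intro x hx k
    change D.wt x.1 = x.2 • D.L at hx
    rw [Polynomial.coeff_monomial]
    split_ifs with h
    · rw [← h, ← hx]
      exact D.mono_mem _
    · exact Submodule.zero_mem _
  · intro P hP
    rw [Polynomial.as_sum_support P]
    refine Submodule.sum_mem _ fun m _ => ?_
    have h1 := hP m
    generalize P.coeff m = a at h1
    rw [Cox.gr] at h1
    induction h1 using Submodule.span_induction with
    | mem a ha =>
      obtain ⟨k, hk, rfl⟩ := ha
      exact Submodule.subset_span ⟨(k, m), hk, rfl⟩
    | zero =>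
      rw [map_zero]
      exact Submodule.zero_mem _
    | add a b ha hb iha ihb =>
      rw [map_add]
      exact Submodule.add_mem _ iha ihb
    | smul z a ha iha =>
      have h1 : Polynomial.monomial m (z • a) = z • Polynomial.monomial m a := by
        rw [Polynomial.smul_monomial]
      rw [h1]
      exact Submodule.smul_mem _ _ iha

end VEFG

/-- VEFG. -/
theorem vefg (hu : S_HUNI) : S_VEFG := by
  intro R ι C r _ _ _ _ D h
  refine ⟨(Subalgebra.fg_iff_finiteType _).1 VEFG.fg, ?_, ?_⟩
  · intro z w hzw
    have h1 := congrArg (fun x : D.verGr 0 => ((x : D.ver) : Polynomial R).coeff 0) hzw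
    simp only [SetLike.GradeZero.coe_algebraMap, Subalgebra.coe_algebraMap] at h1
    rw [Polynomial.algebraMap_apply, Polynomial.algebraMap_apply, Polynomial.coeff_C_zero,
      Polynomial.coeff_C_zero] at h1
    exact (algebraMap ℂ R).injective h1
  · rintro ⟨P, hP⟩
    have h0 : (P : Polynomial R).coeff 0 ∈ D.gr 0 := by
      have h1 := P.2 0
      rwa [zero_smul] at h1
    obtain ⟨z, hz⟩ := (hu R ι C r D h).2.1 _ h0
    refine ⟨z, ?_⟩
    apply Subtype.ext
    apply Subtype.ext
    rw [SetLike.GradeZero.coe_algebraMap, Subalgebra.coe_algebraMap, Polynomial.algebraMap_apply]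
    ext k
    rw [Polynomial.coeff_C]
    split_ifs with hk
    · rw [hk, ← hz]
    · exact (hP k hk).symm

end FCB
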