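import Pool.Agent.H30.FCB.StC
import Pool.Agent.H30.FCB.Basic

/-!
YALG: the algebraic laws for the base.
-/

open MvPolynomial

namespace FCB

namespace YALG

theorem mono_eq (n : CY → ℕ) : DY.mono n = monomial (Finsupp.equivFunOnFinite.symm n) 1 := by
  rw [monomial_eq, Finsupp.prod_fintype _ _ (fun i => pow_zero _), C_1, one_mul]
  rfl

theorem mem_gr (g : Fin 3 → ℤ) (p : RY) :
    p ∈ DY.gr g ↔ ∀ d : CY →₀ ℕ, coeff d p ≠ 0 → DY.wt (fun j => d j) = g := by
  constructor
  · intro hp
    rw [Cox.gr] at hp
    induction hp using Submodule.span_induction with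
    | mem a ha =>
      obtain ⟨k, hk, rfl⟩ := ha
      intro d hd
      rw [mono_eq, coeff_monomial] at hd
      split_ifs at hd with h
      · rw [← h]
        exact hk
      · exact absurd rfl hd
    | zero =>
      intro d hd
      exact absurd (coeff_zero d) hd
    | add a b ha hb iha ihb =>
      intro d hd
      by_cases h : coeff d a = 0
      · refine ihb d ?_
        intro h2
        apply hd
        rw [coeff_add, h, h2, add_zero]
      · exact iha d h
    | smul z a ha iha =>
      intro d hd
      refine iha d ?_
      intro h2
      apply hd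
      rw [coeff_smul, h2, smul_zero]
  · intro h
    rw [as_sum p]
    refine Submodule.sum_mem _ fun d hd => ?_
    have h1 : monomial d (coeff d p) = (coeff d p) • DY.mono (fun j => d j) := by
      have h2 : Finsupp.equivFunOnFinite.symm (fun j => d j) = d :=
        Finsupp.equivFunOnFinite.symm_apply_apply d
      rw [mono_eq, smul_monomial, smul_eq_mul, mul_one, h2]
    rw [h1]
    refine Submodule.smul_mem _ _ ?_
    have h2 := h d (mem_support_iff.1 hd)
    rw [← h2]
    exact DY.mono_mem _

end YALG

open YALG in
/-- YALG. -/
theorem yalg : S_YALG := by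
  classical
  refine ⟨?_, ?_, ?_, ?_⟩
  · intro a
    refine ⟨∑ m ∈ a.support, Finsupp.single (DY.wt (fun j => m j)) (monomial m (coeff m a)),
      ?_, ?_⟩
    · intro g
      rw [Finsupp.finsetSum_apply]
      refine Submodule.sum_mem _ fun m _ => ?_
      rw [Finsupp.single_apply]
      split_ifs with h
      · rw [mem_gr]
        intro d hd
        rw [coeff_monomial] at hd
        split_ifs at hd with h2
        · rw [← h2]
          exact h
        · exact absurd rfl hd
      · exact Submodule.zero_mem _
    · rw [← Finsupp.sum_finsetSum_index (fun _ => rfl) (fun _ _ _ => rfl)]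
      simp only [Finsupp.sum_single_index]
      exact (as_sum a).symm
  · intro s hs h0
    ext g : 1
    rw [Finsupp.coe_zero, Pi.zero_apply]
    ext d
    rw [coeff_zero]
    by_contra hne
    have hg := (mem_gr g _).1 (hs g) d hne
    have h1 := congrArg (coeff d) h0
    rw [Finsupp.sum, coeff_sum, coeff_zero, Finset.sum_eq_single g] at h1
    · exact hne h1
    · intro g' _ hg'
      by_contra hne'
      exact hg' (((mem_gr g' _).1 (hs g') d hne').symm.trans hg)
    · intro hg'
      rw [Finsupp.notMem_support_iff.1 hg', coeff_zero]
  · intro j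
    exact X_prime
  · intro i j hij h
    exact hij (X_dvd_X.1 h.dvd)

end FCB
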